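import Pool.Agent.W761.CB.Stms

set_option autoImplicit false

open MeasureTheory
open scoped ENNReal

namespace Pool.Agent.W427.CB

open Pool.Agent.W761.CB

theorem sum_lint_le {α I : Type} [MeasurableSpace α] (ν : Measure α) (s : Finset I)
    (f : I → α → ℝ≥0∞) : ∑ i ∈ s, ∫⁻ x, f i x ∂ν ≤ ∫⁻ x, ∑ i ∈ s, f i x ∂ν := by
  classical
  induction s using Finset.induction_on with
  | empty => simp
  | insert a s ha ih =>
    simp only [Finset.sum_insert ha]
    calc ∫⁻ x, f a x ∂ν + ∑ i ∈ s, ∫⁻ x, f i x ∂ν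
        ≤ ∫⁻ x, f a x ∂ν + ∫⁻ x, ∑ i ∈ s, f i x ∂ν := add_le_add le_rfl ih
      _ ≤ ∫⁻ x, f a x + ∑ i ∈ s, f i x ∂ν := le_lintegral_add _ _

theorem dia (h0 : S_DIA0) (_ : S_TF) : S_DIA := by
  intro n L _ μ K v I _ u g hK hv hg hum hu0 hu1 hker F hF
  obtain ⟨-, -, hpair, b, hb, hdE, hag⟩ := h0 (Tor n L) volume F hF
  have hle : ∀ x y, dE volume (absv F) x y ≤ dE volume F x y := by
    intro x y
    rw [hdE x y]
    exact le_self_add
  -- kinetic energy
  have h1 : Kp (absv F) ≤ Kp F := by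
    unfold Kp
    refine Finset.sum_le_sum fun c _ => iSup_mono fun k => ?_
    exact mul_le_mul_right (lintegral_mono fun x => hle _ _) _
  -- hopping energy
  have h2 : Hp K (absv F) + ∫⁻ z, K z * ∫⁻ x, b (x + pr L z) x ≤ Hp K F := by
    unfold Hp
    obtain ⟨A, hA⟩ : ∃ A : (Fin n → ℝ) → ℝ≥0∞,
        A = fun z => ∫⁻ x, dE volume (absv F) (x + pr L z) x := ⟨_, rfl⟩
    obtain ⟨B, hB⟩ : ∃ B : (Fin n → ℝ) → ℝ≥0∞, B = fun z => ∫⁻ x, b (x + pr L z) x := ⟨_, rfl⟩
    obtain ⟨C, hC⟩ : ∃ C : (Fin n → ℝ) → ℝ≥0∞,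
        C = fun z => ∫⁻ x, dE volume F (x + pr L z) x := ⟨_, rfl⟩
    have h4 : ∀ z : Fin n → ℝ, A z + 2 * B z ≤ C z := by
      intro z
      rw [hA, hB, hC]
      calc (∫⁻ x, dE volume (absv F) (x + pr L z) x) + 2 * ∫⁻ x, b (x + pr L z) x
          ≤ (∫⁻ x, dE volume (absv F) (x + pr L z) x) + ∫⁻ x, 2 * b (x + pr L z) x :=
            add_le_add le_rfl (lintegral_const_mul_le _ _)
        _ ≤ ∫⁻ x, (dE volume (absv F) (x + pr L z) x + 2 * b (x + pr L z) x) :=
            le_lintegral_add _ _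
        _ = ∫⁻ x, dE volume F (x + pr L z) x := by
            refine lintegral_congr fun x => ?_
            rw [hdE]
    have h5 : (∫⁻ z, K z * A z) + 2 * (∫⁻ z, K z * B z) ≤ ∫⁻ z, K z * C z := by
      calc (∫⁻ z, K z * A z) + 2 * (∫⁻ z, K z * B z)
          ≤ (∫⁻ z, K z * A z) + ∫⁻ z, 2 * (K z * B z) :=
            add_le_add le_rfl (lintegral_const_mul_le _ _)
        _ ≤ ∫⁻ z, (K z * A z + 2 * (K z * B z)) := le_lintegral_add _ _
        _ ≤ ∫⁻ z, K z * C z := by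
            refine lintegral_mono fun z => ?_
            calc K z * A z + 2 * (K z * B z) = K z * (A z + 2 * B z) := by ring
              _ ≤ K z * C z := mul_le_mul_right (h4 z) _
    have h6 : (2⁻¹ * ∫⁻ z, K z * A z) + (∫⁻ z, K z * B z) ≤ 2⁻¹ * ∫⁻ z, K z * C z := by
      calc (2⁻¹ * ∫⁻ z, K z * A z) + (∫⁻ z, K z * B z)
          = 2⁻¹ * ((∫⁻ z, K z * A z) + 2 * (∫⁻ z, K z * B z)) := by
            rw [mul_add, ← mul_assoc 2⁻¹ 2, ENNReal.inv_mul_cancel (by norm_num) (by norm_num),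
              one_mul]
        _ ≤ _ := mul_le_mul_right h5 _
    rw [hA, hB, hC] at h6
    exact h6
  -- potential energy
  have h3 : Vp v (absv F) = Vp v F := by
    unfold Vp
    simp only [hpair]
  -- averages
  have h4 : ENNReal.ofReal g * ∑ i, nE volume (ag volume (u i) (absv F)) ≤
      ENNReal.ofReal g * ∑ i, nE volume (ag volume (u i) F) +
        ∫⁻ z, K z * ∫⁻ x, b (x + pr L z) x := by
    have h5 : ∑ i, nE volume (ag volume (u i) (absv F)) ≤
        ∑ i, nE volume (ag volume (u i) F) +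
          ∫⁻ x, ∫⁻ y, (∑ i, ENNReal.ofReal (u i x * u i y)) * b x y := by
      have h6 : ∀ i, nE volume (ag volume (u i) (absv F)) = nE volume (ag volume (u i) F) +
          ∫⁻ x, ∫⁻ y, ENNReal.ofReal (u i x * u i y) * b x y := fun i =>
        hag (u i) (hum i) (hu0 i) ⟨1, hu1 i⟩
      simp only [h6, Finset.sum_add_distrib]
      refine add_le_add le_rfl ?_
      calc ∑ i, ∫⁻ x, ∫⁻ y, ENNReal.ofReal (u i x * u i y) * b x y
          ≤ ∫⁻ x, ∑ i, ∫⁻ y, ENNReal.ofReal (u i x * u i y) * b x y := sum_lint_le _ _ _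
        _ ≤ ∫⁻ x, ∫⁻ y, ∑ i, ENNReal.ofReal (u i x * u i y) * b x y :=
            lintegral_mono fun x => sum_lint_le _ _ _
        _ = _ := by simp only [Finset.sum_mul]
    calc ENNReal.ofReal g * ∑ i, nE volume (ag volume (u i) (absv F))
        ≤ ENNReal.ofReal g * (∑ i, nE volume (ag volume (u i) F) +
          ∫⁻ x, ∫⁻ y, (∑ i, ENNReal.ofReal (u i x * u i y)) * b x y) := mul_le_mul_right h5 _
      _ = ENNReal.ofReal g * ∑ i, nE volume (ag volume (u i) F) + ENNReal.ofReal g *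
          ∫⁻ x, ∫⁻ y, (∑ i, ENNReal.ofReal (u i x * u i y)) * b x y := mul_add _ _ _
      _ ≤ _ := add_le_add le_rfl (hker b hb)
  unfold en ken
  calc μ * Kp (absv F) + Hp K (absv F) + Vp v (absv F) +
        ENNReal.ofReal g * ∑ i, nE volume (ag volume (u i) (absv F))
      ≤ μ * Kp F + Hp K (absv F) + Vp v F +
        (ENNReal.ofReal g * ∑ i, nE volume (ag volume (u i) F) +
        ∫⁻ z, K z * ∫⁻ x, b (x + pr L z) x) := by
        rw [h3]
        exact add_le_add (add_le_add (add_le_add (mul_le_mul_right h1 _) le_rfl) le_rfl) h4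
    _ = μ * Kp F + (Hp K (absv F) + ∫⁻ z, K z * ∫⁻ x, b (x + pr L z) x) + Vp v F +
        ENNReal.ofReal g * ∑ i, nE volume (ag volume (u i) F) := by ring
    _ ≤ _ := by
        exact add_le_add (add_le_add (add_le_add le_rfl h2) le_rfl) le_rfl

end Pool.Agent.W427.CB
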